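import Mathlib
import Pool.Agent.Y981.QB.Stm

/-!
# QB-CNT: the number of walks with `K` consecutive light pieces
-/

set_option autoImplicit false

namespace Pool.Agent.Y872.QB

open Pool.Agent.Y981.QB H978R2.Hex

theorem gt_drop (l : List V) (b i : ℕ) : gt (l.drop b) i = gt l (b + i) := by
  unfold gt
  rw [List.getD_eq_getElem?_getD, List.getD_eq_getElem?_getD, List.getElem?_drop]

theorem gt_take (l : List V) {k i : ℕ} (h : i < k) : gt (l.take k) i = gt l i := by
  unfold gt
  rw [List.getD_eq_getElem?_getD, List.getD_eq_getElem?_getD, List.getElem?_take, if_pos h]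

theorem light_congr {η : ℝ} {W lam m : ℕ} {γ γ' : ℕ → V} (h : ∀ i ≤ m, γ i = γ' i)
    (hL : Light η W lam m γ) : Light η W lam m γ' := by
  obtain ⟨h1, k, t, hk, h0, ht, hm, hA, hB⟩ := hL
  have hmono : ∀ d j, j + d ≤ k → t j ≤ t (j + d) := by
    intro d
    induction d with
    | zero => intro j _; exact le_refl _
    | succ d ih =>
      intro j hj
      exact (ih j (by omega)).trans (ht (j + d) (by omega)).le
  have hmk : ∀ j, j ≤ k → t j ≤ m := fun j hj => by
    have := hmono (k - j) j (by omega)
    rw [Nat.add_sub_cancel' hj] at this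
    exact this.trans hm
  refine ⟨?_, k, t, hk, h0, ht, hm, ?_, ?_⟩
  · rw [← h 0 (Nat.zero_le _), ← h m le_rfl]
    exact h1
  · intro j hj i h2 h3
    have h4 := hmk (j + 1) hj
    rw [← h i (by omega), ← h (t j) (hmk j hj.le)]
    exact hA j hj i h2 h3
  · intro i h2 h3
    rw [← h i h3, ← h (t k) hm]
    exact hB i h2 h3

theorem sw_take {v : V} {m : ℕ} {l : List V} (h : IsSW v m l) {a : ℕ} (ha : a ≤ m) :
    IsSW v a (l.take (a + 1)) := by
  obtain ⟨h1, h2, h3, h4⟩ := h
  refine ⟨?_, ?_, h3.take _, h4.sublist (List.take_sublist _ _)⟩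
  · rw [List.length_take, h1]
    omega
  · rw [List.head?_take, if_neg (Nat.succ_ne_zero a), h2]

theorem sw_drop {v u : V} {m : ℕ} {l : List V} (h : IsSW v m l) {b : ℕ} (hb : b ≤ m)
    (hu : (l.drop b).head? = some u) : IsSW u (m - b) (l.drop b) := by
  obtain ⟨h1, h2, h3, h4⟩ := h
  refine ⟨?_, hu, h3.drop _, h4.sublist (List.drop_sublist _ _)⟩
  rw [List.length_drop, h1]
  omega

theorem sw_mid {v u : V} {m : ℕ} {l : List V} (h : IsSW v m l) {a b : ℕ} (hab : a ≤ b)
    (hb : b ≤ m) (hu : ((l.drop a).take (b - a + 1)).head? = some u) :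
    IsSW u (b - a) ((l.drop a).take (b - a + 1)) := by
  have h1 : (l.drop a).head? = some u := by
    rw [List.head?_take, if_neg (Nat.succ_ne_zero _)] at hu
    exact hu
  exact sw_take (sw_drop h (hab.trans hb) h1) (by omega)

theorem dl_shift {η : ℝ} {W lam n K : ℕ} {l : List V} (h : DL η W lam n (gt l) (K + 1)) :
    ∃ a b, a ≤ b ∧ b ≤ n ∧ Light η W lam (b - a) (gt ((l.drop a).take (b - a + 1))) ∧
      DL η W lam (n - b) (gt (l.drop b)) K := by
  obtain ⟨a, b, h1, h2⟩ := h
  have h0 := h1 0 (Nat.succ_pos K)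
  have h3 : ∀ j, j + 1 < K + 1 → b 0 ≤ a (j + 1) := by
    intro j
    induction j with
    | zero => intro hj; exact h2 0 hj
    | succ j ih =>
      intro hj
      have h4 := ih (by omega)
      have h5 := (h1 (j + 1) (by omega)).1
      have h6 := h2 (j + 1) hj
      omega
  refine ⟨a 0, b 0, h0.1, h0.2.1, ?_, fun j => a (j + 1) - b 0, fun j => b (j + 1) - b 0, ?_, ?_⟩
  · refine light_congr (fun i hi => ?_) h0.2.2
    show gt l (a 0 + i) = _
    rw [gt_take _ (by omega), gt_drop]
  · intro j hj
    have h4 := h3 j (by omega)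
    obtain ⟨h5, h6, h7⟩ := h1 (j + 1) (by omega)
    refine ⟨by show a (j + 1) - b 0 ≤ b (j + 1) - b 0; omega,
      by show b (j + 1) - b 0 ≤ n - b 0; omega, ?_⟩
    show Light η W lam ((b (j + 1) - b 0) - (a (j + 1) - b 0))
      (fun i => gt (l.drop (b 0)) ((a (j + 1) - b 0) + i))
    have h8 : (b (j + 1) - b 0) - (a (j + 1) - b 0) = b (j + 1) - a (j + 1) := by omega
    rw [h8]
    refine light_congr (fun i _ => ?_) h7
    show gt l (a (j + 1) + i) = gt (l.drop (b 0)) ((a (j + 1) - b 0) + i)
    rw [gt_drop]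
    congr 1
    omega
  · intro j hj
    have h4 := h2 (j + 1) (by omega)
    show b (j + 1) - b 0 ≤ a (j + 1 + 1) - b 0
    omega

theorem mu0_nonneg : 0 ≤ mu0 := Real.sqrt_nonneg _

/-- CNT -/
theorem cnt (hs : S_SPLIT) : S_CNT := by
  intro η A C W lam n K hC hS hL
  have key : ∀ K n' : ℕ, n' ≤ n → ∀ (v : V) (F : Finset (List V)),
      (∀ l ∈ F, IsSW v n' l ∧ DL η W lam n' (gt l) K) →
      (F.card : ℝ) ≤ mu0 ^ n' * ((n' : ℝ) + 1) ^ (2 * K) * Real.exp ((K + 1) * C + K * A) := by
    intro K
    induction K with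
    | zero =>
      intro n' hn v F hF
      have h := hS v n' F hn (fun l hl => (hF l hl).1)
      simpa using h
    | succ K ih =>
      intro n' hn v F hF
      classical
      set P : ℕ × ℕ → List V → Prop := fun p l => p.1 ≤ p.2 ∧ p.2 ≤ n' ∧
        Light η W lam (p.2 - p.1) (gt ((l.drop p.1).take (p.2 - p.1 + 1))) ∧
        DL η W lam (n' - p.2) (gt (l.drop p.2)) K with hP
      set B : ℝ := mu0 ^ n' * ((n' : ℝ) + 1) ^ (2 * K) *
        Real.exp ((((K + 1 : ℕ) : ℝ) + 1) * C + ((K + 1 : ℕ) : ℝ) * A) with hB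
      have hn0 : (0 : ℝ) ≤ (n' : ℝ) + 1 := by positivity
      have hB0 : 0 ≤ B := by
        have := mu0_nonneg
        positivity
      have hone : ∀ p : ℕ × ℕ, ((F.filter (P p)).card : ℝ) ≤ B := by
        intro p
        by_cases hp : p.1 ≤ p.2 ∧ p.2 ≤ n'
        · obtain ⟨hab, hb⟩ := hp
          have hmem : ∀ l ∈ F.filter (P p), IsSW v n' l ∧
              Light η W lam (p.2 - p.1) (gt ((l.drop p.1).take (p.2 - p.1 + 1))) ∧
              DL η W lam (n' - p.2) (gt (l.drop p.2)) K := by
            intro l hl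
            rw [Finset.mem_filter] at hl
            exact ⟨(hF l hl.1).1, hl.2.2.2.1, hl.2.2.2.2⟩
          have h := hs n' p.1 p.2 (mu0 ^ p.1 * Real.exp C) (mu0 ^ (p.2 - p.1) * Real.exp A)
            (mu0 ^ (n' - p.2) * ((n' : ℝ) + 1) ^ (2 * K) * Real.exp ((K + 1) * C + K * A))
            (F.filter (P p)) hab hb
            (by have := mu0_nonneg; positivity) (by have := mu0_nonneg; positivity)
            (by have := mu0_nonneg; positivity)
            (fun l hl => (hmem l hl).1.1)
            (by
              intro G hG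
              refine hS v p.1 G (hab.trans (hb.trans hn)) fun l hl => ?_
              obtain ⟨l', hl', rfl⟩ := hG l hl
              exact sw_take (hmem l' hl').1 (hab.trans hb))
            (by
              intro u G hG
              refine hL u (p.2 - p.1) G (by omega) fun l hl => ?_
              obtain ⟨hu, l', hl', rfl⟩ := hG l hl
              exact ⟨sw_mid (hmem l' hl').1 hab hb hu, (hmem l' hl').2.1⟩)
            (by
              intro u G hG
              have h1 := ih (n' - p.2) (by omega) u G fun l hl => by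
                obtain ⟨hu, l', hl', rfl⟩ := hG l hl
                exact ⟨sw_drop (hmem l' hl').1 hb hu, (hmem l' hl').2.2⟩
              refine h1.trans ?_
              have h2 : (((n' - p.2 : ℕ) : ℝ) + 1) ^ (2 * K) ≤ ((n' : ℝ) + 1) ^ (2 * K) := by
                refine pow_le_pow_left₀ (by positivity) ?_ _
                have : ((n' - p.2 : ℕ) : ℝ) ≤ (n' : ℝ) := Nat.cast_le.2 (Nat.sub_le _ _)
                linarith
              have h3 : 0 ≤ mu0 ^ (n' - p.2) := by have := mu0_nonneg; positivity
              exact mul_le_mul_of_nonneg_right (mul_le_mul_of_nonneg_left h2 h3)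
                (Real.exp_pos _).le)
          refine h.trans (le_of_eq ?_)
          rw [hB]
          have h4 : mu0 ^ n' = mu0 ^ p.1 * mu0 ^ (p.2 - p.1) * mu0 ^ (n' - p.2) := by
            rw [← pow_add, ← pow_add]
            congr 1
            omega
          have h5 : Real.exp ((((K + 1 : ℕ) : ℝ) + 1) * C + ((K + 1 : ℕ) : ℝ) * A) =
              Real.exp C * Real.exp A * Real.exp ((K + 1) * C + K * A) := by
            rw [← Real.exp_add, ← Real.exp_add]
            congr 1
            push_cast
            ring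
          rw [h4, h5]
          ring
        · have h0 : F.filter (P p) = ∅ := by
            rw [Finset.filter_eq_empty_iff]
            intro l _ hl
            exact hp ⟨hl.1, hl.2.1⟩
          rw [h0]
          simpa using hB0
      have hsub : F ⊆ (Finset.range (n' + 1) ×ˢ Finset.range (n' + 1)).biUnion
          (fun p => F.filter (P p)) := by
        intro l hl
        obtain ⟨a, b, hab, hb, h1, h2⟩ := dl_shift (hF l hl).2
        rw [Finset.mem_biUnion]
        refine ⟨(a, b), ?_, ?_⟩
        · rw [Finset.mem_product, Finset.mem_range, Finset.mem_range]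
          exact ⟨by show a < n' + 1; omega, by show b < n' + 1; omega⟩
        · rw [Finset.mem_filter]
          exact ⟨hl, hab, hb, h1, h2⟩
      have hcard : (F.card : ℝ) ≤ ∑ p ∈ Finset.range (n' + 1) ×ˢ Finset.range (n' + 1),
          ((F.filter (P p)).card : ℝ) := by
        have h1 := (Finset.card_le_card hsub).trans Finset.card_biUnion_le
        exact_mod_cast h1
      refine hcard.trans ?_
      refine (Finset.sum_le_sum fun p _ => hone p).trans (le_of_eq ?_)
      rw [Finset.sum_const, Finset.card_product, Finset.card_range, nsmul_eq_mul, hB]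
      push_cast
      ring
  intro v F hF
  exact key K n le_rfl v F hF

end Pool.Agent.Y872.QB
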